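import Pool.Agent.N659.HB.FinN
import Pool.Agent.N659.HB.Stm8

/-!
Project SD: assembly of the theorem at strong disorder.
-/

set_option autoImplicit false

namespace Pool.Agent.N776.SD

open MeasureTheory Filter Pool.Agent.W792.LL Pool.Agent.W792.WA Pool.Agent.W191.LL
open Pool.Agent.N659.HB
open scoped Topology ENNReal

noncomputable section

/-- Scaling of the uniform law. -/
theorem unif_map {g c : ℝ} (hg : 0 < g) (hc : 0 < c) :
    ((unif c).map fun x => g * x) = unif (g * c) := by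
  have hm : Measurable fun x : ℝ => g * x := by fun_prop
  unfold unif
  rw [Measure.map_smul]
  have hpre : (fun x : ℝ => g * x) ⁻¹' (Set.Icc (-(g * c)) (g * c)) = Set.Icc (-c) c := by
    ext x
    simp only [Set.mem_preimage, Set.mem_Icc]
    constructor
    · rintro ⟨h1, h2⟩
      constructor
      · by_contra h
        push Not at h
        nlinarith
      · by_contra h
        push Not at h
        nlinarith
    · rintro ⟨h1, h2⟩
      constructor <;> nlinarith
  have h1 := Measure.restrict_map (μ := (volume : Measure ℝ)) hm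
    (measurableSet_Icc (a := -(g * c)) (b := g * c))
  rw [hpre] at h1
  rw [← h1, Real.map_volume_mul_left hg.ne', Measure.restrict_smul, smul_smul]
  congr 1
  rw [← ENNReal.ofReal_mul (by positivity), abs_of_pos (inv_pos.2 hg)]
  congr 1
  field_simp

/-- The uniform law is a probability measure. -/
theorem unif_prob {c : ℝ} (hc : 0 < c) : IsProbabilityMeasure (unif c) := by
  constructor
  unfold unif
  rw [Measure.smul_apply, Measure.restrict_apply_univ, Real.volume_Icc, smul_eq_mul,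
    ← ENNReal.ofReal_mul (by positivity)]
  rw [show 1 / (2 * c) * (c - -c) = 1 by field_simp; ring]
  exact ENNReal.ofReal_one

/-- The uniform law has no atoms. -/
theorem unif_atom (c a : ℝ) : unif c {a} < 1 := by
  unfold unif
  rw [Measure.smul_apply]
  have : (volume.restrict (Set.Icc (-c) c)) {a} = 0 := by
    refine le_antisymm (le_trans (Measure.restrict_apply_le _ _) ?_) bot_le
    simp
  rw [this]
  simp

/-- The theorem at strong disorder. -/
theorem main (hG : S_SDG) (hC : S_CHK) (hAe : S_AEQK) (hAf : S_AFF) (hCay : S_CAY) (hW : S_WS)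
    (hψ : ∃ ψ : C(UnitAddCircle, ℝ), IsSemi ψ ∧ ∀ d : ℕ, 0 < d → ∃ C : ℝ, 0 < C ∧
      ∀ (M : ℕ) (x : Fin d → ℤ),
      ‖UnitAddTorus.mFourierCoeff (fun k : UnitAddTorus (Fin d) =>
        ((ψ ((M * lap d k / (2 * Real.pi) : ℝ) : UnitAddCircle) : ℝ) : ℂ)) x‖
        ≤ C / (1 + ‖x‖) ^ ((d : ℝ) / 3)) : S_SD := by
  intro d θ hd hθ0 hθ1
  obtain ⟨ψ, hψ1, hψ2⟩ := hψ
  obtain ⟨Cd, hCd, hCd1⟩ := hψ2 d hd
  have hdr : (0 : ℝ) < d := by exact_mod_cast hd
  set w : ℝ := 2 * d / θ with hw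
  have hw0 : 0 < w := by positivity
  have iw : IsProbabilityMeasure (unif w) := unif_prob hw0
  obtain ⟨γ₀, r₀, hγ₀, hr₀, hgap⟩ := hG ψ hψ1 d w θ (2 * d) hd hw0 hθ0.le hθ1
  refine ⟨2 * d / (θ * γ₀), by positivity, ?_⟩
  intro c ε _ hc hε
  have hc0 : 0 < c := lt_of_lt_of_le (by positivity) hc
  set γ : ℝ := 2 * d / (θ * c) with hγdef
  have hγ : 0 < γ := by positivity
  have hγγ : γ ≤ γ₀ := by
    rw [div_le_iff₀ (by positivity)] at hc
    rw [hγdef, div_le_iff₀ (by positivity)]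
    calc (2 * d : ℝ) ≤ c * (θ * γ₀) := hc
      _ = γ₀ * (θ * c) := by ring
  have hγc : γ * c = w := by
    rw [hγdef, hw]; field_simp
  have hγθ : γ * (θ * c) = 2 * d := by
    rw [hγdef]; field_simp
  set K' : C(UnitAddTorus (Fin d), ℝ) := γ • (lap d - ContinuousMap.const _ (-(θ * c))) with hK'
  have hKk : ∀ k, K' k = 2 * d + γ * lap d k := by
    intro k
    rw [hK']
    simp only [ContinuousMap.smul_apply, ContinuousMap.sub_apply, ContinuousMap.const_apply,
      smul_eq_mul]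
    rw [sub_neg_eq_add, mul_add, hγθ]
    ring
  -- the levels
  obtain ⟨r, hr0, hrr, hr1, hr3⟩ : ∃ r : ℝ, 0 < r ∧ r ≤ r₀ ∧ 2 * r ≤ γ * ε ∧
      2 * r * Cd ≤ γ * ε := by
    refine ⟨min r₀ (min (γ * ε / 2) (γ * ε / (2 * Cd))),
      lt_min hr₀ (lt_min (by positivity) (by positivity)), min_le_left _ _, ?_, ?_⟩
    · have h1 := min_le_right r₀ (min (γ * ε / 2) (γ * ε / (2 * Cd)))
      have h2 := min_le_left (γ * ε / 2) (γ * ε / (2 * Cd))
      linarith
    · have h1 := min_le_right r₀ (min (γ * ε / 2) (γ * ε / (2 * Cd)))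
      have h2 := h1.trans (min_le_right (γ * ε / 2) (γ * ε / (2 * Cd)))
      rw [le_div_iff₀ (by positivity)] at h2
      linarith
  obtain ⟨σ, hσ, hgap1⟩ := hgap γ r hγ hγγ hr0 hrr
  -- law
  have hm2 : Measurable fun x : ℝ => (γ * 1) * x := by fun_prop
  have hP2 : IsProbabilityMeasure ((unif c).map fun x => (γ * 1) * x) :=
    Measure.isProbabilityMeasure_map hm2.aemeasurable
  have hmap : ((unif c).map fun x => (γ * 1) * x) = unif w := by
    rw [mul_one, unif_map hγ hc0, hγc]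
  obtain ⟨f0, hf1, hf2⟩ : ∃ f : C(ℝ, ℝ), IsSum ψ (2 * r) f ∧
      MestK (K' + gK f d) ((unif c).map fun x => (γ * 1) * x) := by
    have key : ∀ (ν' : Measure ℝ) [IsProbabilityMeasure ν'], ν' = unif w →
        ∃ f : C(ℝ, ℝ), IsSum ψ (2 * r) f ∧ MestK (K' + gK f d) ν' := by
      intro ν' _ he
      subst he
      have hvr : 0 < vr (unif w) := Pool.Agent.W792.WA.Ch.vr_pos hCay _ (unif_atom w)
      refine hC ψ hψ1 d (unif w) K' r σ hd hvr hr0 hσ ?_
      intro ρ' _ hρ z hz s hs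
      obtain ⟨z1, z2, z3, z4⟩ := hz
      refine hgap1 ρ' hρ K' hKk z ?_ z3 z4 s hs
      have hθw : θ * w = 2 * d := by rw [hw]; field_simp
      rw [hθw, abs_le]
      constructor <;> linarith
    exact key _ hmap
  have hfb : ∀ t, |f0 t| ≤ 2 * r := fun t => G16.IsSum.bound hψ1.bound hf1 t
  set F : C(ℝ, ℝ) := γ⁻¹ • f0 with hFdef
  have hFt : ∀ t, F t = γ⁻¹ * f0 t := fun t => rfl
  refine ⟨F, fun t => ?_, fun x => ?_, ?_⟩
  · rw [hFt, abs_mul, abs_of_pos (inv_pos.2 hγ)]
    calc γ⁻¹ * |f0 t| ≤ γ⁻¹ * (γ * ε) :=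
          mul_le_mul_of_nonneg_left ((hfb t).trans hr1) (inv_pos.2 hγ).le
      _ = ε := by field_simp
  · have e1' : (fun k : UnitAddTorus (Fin d) => ((F (lap d k) : ℝ) : ℂ))
        = fun k => ((γ⁻¹ * (f0 (lap d k)) : ℝ) : ℂ) := rfl
    rw [e1', hop_smul]
    have h2 := hW d ψ Cd (2 * r) f0 hd hCd.le (by positivity) hCd1 hf1 x
    have hx0 : (0 : ℝ) < (1 + ‖x‖) ^ ((d : ℝ) / 3) := by positivity
    rw [norm_mul, Complex.norm_real, Real.norm_of_nonneg (inv_pos.2 hγ).le]
    calc γ⁻¹ * _ ≤ γ⁻¹ * (γ * ε / (1 + ‖x‖) ^ ((d : ℝ) / 3)) := by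
          refine mul_le_mul_of_nonneg_left (h2.trans ?_) (inv_pos.2 hγ).le
          exact div_le_div_of_nonneg_right hr3 hx0.le
      _ = ε / (1 + ‖x‖) ^ ((d : ℝ) / 3) := by
          field_simp
  · have hkey : K' + gK f0 d
        = γ • ((lap d + gK F d) - ContinuousMap.const _ (-(θ * c))) := by
      rw [hK']
      ext k
      simp only [ContinuousMap.add_apply, ContinuousMap.smul_apply, ContinuousMap.sub_apply,
        ContinuousMap.const_apply, smul_eq_mul, gK, ContinuousMap.comp_apply, hFt]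
      field_simp
      ring
    have h0 := hAe d (unif c) (γ * 1) (K' + gK f0 d) hd (by positivity) hf2
    filter_upwards [h0] with v hv
    rw [hkey] at hv
    have h3 := hAf d (lap d + gK F d) γ (-(θ * c)) 1 0 (4 * d) v hγ hv
    have h4 : -(θ * c) + 0 / γ = -(θ * c) := by simp
    have h5 : -(θ * c) + 4 * d / γ = θ * c := by
      rw [hγdef]; field_simp; ring
    rw [h4, h5] at h3
    exact h3

end

end Pool.Agent.N776.SD
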